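import Pool.Agent.R474.Sqrt

/-!
# Coincident sums of two places of ones of `√2`

No hypothesis is assumed.  The binary digits of `√2 = 1.0110101…` have the places `0, 1, 2, …`, where
the place `0` is that of the digit before the point.  A number `m` is a *coincidence* if it has two
different representations as the sum of two (equal or different) places of ones.

* For every place `k ≥ 1` of a one there is a coincidence `m` with
  `2 k ≤ m ≤ 2 k + log₂ k + 3` (`log₂ k` rounded down).
* For `n ≥ 5` let `K` be the number of coincidences `m ≤ n`.  Then `n ≤ 300 K ^ 2 log n`.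

So the places of the ones are not a Sidon set, even if finitely many of them, or all those up to a
bound, are left out: there are at least `√(n / (300 log n))` coincidences up to `n`.

Proof.  Let `r m` be the number of the ordered pairs of places of ones with sum `m`, and
`c m = ∑_{j ≥ 1} r (m + j) / 2 ^ j`.  As `∑ r m / 2 ^ m = 2`, the `c m` are positive integers and
`c m = 2 c (m - 1) - r m`.  So `c m` is odd if and only if `m / 2` is a place of a one.  Let
`k ≥ 1` be such a place.  Then `c (2 k - 1) ≥ 2`, and if `2 k` is not a coincidence, then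
`r (2 k) = 1` and `c (2 k) ≥ 3`.  As long as there is no coincidence, `c (m + 1) ≥ 2 c m - 2`, and `c`
grows exponentially, but `c m ≤ m + 6`.  So the ones up to `(n - L) / 2`, `L = O(log n)`, are covered
by `K` intervals of length at most `L / 2 + 2`, and the covering inequality of
`Pool.Agent.R474.Sqrt` (hand-in `CoveringOnesAndZeros`) gives the second part.
-/

set_option autoImplicit false

open Finset

namespace Pool.Agent.Results.MP_0308e6_nt.CoincidentSums

open Pool.Agent.R474

/-- the binary digit of `√2` at the place `k ≥ 0` (the place `0` is before the point) -/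
noncomputable def digit (k : ℕ) : ℤ := ⌊Real.sqrt 2 * 2 ^ k⌋ % 2

/-- `m` has two different representations `i + j = i' + j'`, `i ≤ j`, `i' ≤ j'`, as the sum of two
places of ones -/
def Coincidence (m : ℕ) : Prop := ∃ i j i' j' : ℕ, i ≤ j ∧ i' ≤ j' ∧ i ≠ i' ∧ i + j = m ∧
  i' + j' = m ∧ digit i = 1 ∧ digit j = 1 ∧ digit i' = 1 ∧ digit j' = 1

open Classical in
/-- the number of the coincidences in `[1, n]` -/
noncomputable def coincidences (n : ℕ) : ℕ := ((Icc 1 n).filter Coincidence).card

/-! ### Proofs -/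

lemma digit_eq (k : ℕ) : digit k = (dg k : ℤ) := by
  unfold digit dg U
  have h := Int.natCast_floor_eq_floor (a := Real.sqrt 2 * 2 ^ k) (by positivity)
  rw [← h]
  norm_cast

lemma digit_zero : digit 0 = 1 := by
  rw [digit_eq]
  unfold dg
  rw [U_zero]
  norm_num

lemma one_of_ones {k : ℕ} (h : ones k = 1) : 1 ≤ k ∧ digit k = 1 := by
  unfold ones at h
  split_ifs at h with h0
  exact ⟨by omega, by rw [digit_eq, h]; norm_num⟩

lemma ones_of_one {k : ℕ} (hk : 1 ≤ k) (h : digit k = 1) : ones k = 1 := by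
  unfold ones
  rw [if_neg (by omega)]
  rw [digit_eq] at h
  exact_mod_cast h

lemma coinc (m : ℕ) (h : 3 ≤ rep ones m + 2 * ones m) : Coincidence m := by
  have hle := exp_ones.le_one
  by_cases hm : ones m = 1
  · obtain ⟨hm1, hm2⟩ := one_of_ones hm
    have h1 : rep ones m ≠ 0 := by omega
    unfold rep at h1
    obtain ⟨i, hi, hne⟩ := exists_ne_zero_of_sum_ne_zero h1
    rw [mem_range] at hi
    have h3 : ones i = 1 := by
      have := hle i
      have : ones i ≠ 0 := fun h => hne (by rw [h, zero_mul])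
      omega
    have h4 : ones (m - i) = 1 := by
      have := hle (m - i)
      have : ones (m - i) ≠ 0 := fun h => hne (by rw [h, mul_zero])
      omega
    obtain ⟨h5, h6⟩ := one_of_ones h3
    obtain ⟨h7, h8⟩ := one_of_ones h4
    rcases le_total i (m - i) with h9 | h9
    · exact ⟨0, m, i, m - i, by omega, h9, by omega, by omega, by omega, digit_zero, hm2, h6, h8⟩
    · exact ⟨0, m, m - i, i, by omega, h9, by omega, by omega, by omega, digit_zero, hm2, h8, h6⟩
  · have hm0 : ones m = 0 := by have := hle m; omega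
    rw [hm0, mul_zero, add_zero] at h
    by_contra hcon
    set S := (range (m + 1)).filter (fun i => ones i = 1 ∧ ones (m - i) = 1) with hS
    have hcard : rep ones m = S.card := by
      unfold rep
      rw [hS, card_filter]
      refine sum_congr rfl fun i _ => ?_
      have h1 := hle i
      have h2 := hle (m - i)
      split_ifs with h3
      · rw [h3.1, h3.2]
      · rcases Nat.lt_or_ge (ones i) 1 with h4 | h4
        · rw [Nat.lt_one_iff.1 h4, zero_mul]
        · have : ones (m - i) = 0 := by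
            by_contra h5
            exact h3 ⟨by omega, by omega⟩
          rw [this, mul_zero]
    have hmem : ∀ i ∈ S, i ≤ m ∧ ones i = 1 ∧ ones (m - i) = 1 := by
      intro i hi
      rw [hS, mem_filter, mem_range] at hi
      exact ⟨by omega, hi.2⟩
    have hne : S.Nonempty := card_pos.1 (by omega)
    obtain ⟨i, hi⟩ := hne
    obtain ⟨hi1, hi2, hi3⟩ := hmem i hi
    have key : ∀ x ∈ S, ∀ y ∈ S, x ≤ m - x → y ≤ m - y → x = y := by
      intro x hx y hy h1 h2
      by_contra hxy
      obtain ⟨hx1, hx2, hx3⟩ := hmem x hx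
      obtain ⟨hy1, hy2, hy3⟩ := hmem y hy
      exact hcon ⟨x, m - x, y, m - y, h1, h2, hxy, by omega, by omega, (one_of_ones hx2).2,
        (one_of_ones hx3).2, (one_of_ones hy2).2, (one_of_ones hy3).2⟩
    have hsym : ∀ x ∈ S, m - x ∈ S := by
      intro x hx
      obtain ⟨hx1, hx2, hx3⟩ := hmem x hx
      rw [hS, mem_filter, mem_range]
      exact ⟨by omega, hx3, by rwa [show m - (m - x) = x by omega]⟩
    have hsub : S ⊆ {i, m - i} := by
      intro x hx
      obtain ⟨hx1, hx2, hx3⟩ := hmem x hx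
      rw [mem_insert, mem_singleton]
      rcases le_total x (m - x) with h1 | h1 <;> rcases le_total i (m - i) with h2 | h2
      · exact Or.inl (key x hx i hi h1 h2)
      · right
        exact key x hx (m - i) (hsym i hi) h1 (by omega)
      · right
        have := key (m - x) (hsym x hx) i hi (by omega) h2
        omega
      · left
        have := key (m - x) (hsym x hx) (m - i) (hsym i hi) (by omega) (by omega)
        omega
    have h1 := card_le_card hsub
    have h2 := card_le_two (a := i) (b := m - i)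
    omega

/-- parity of the number of the representations of an odd number -/
lemma rep_odd (a : ℕ → ℕ) (h : ℕ) :
    rep a (2 * h + 1) = 2 * ∑ i ∈ range (h + 1), a i * a (2 * h + 1 - i) := by
  unfold rep
  have e : 2 * h + 1 + 1 = (h + 1) + (h + 1) := by ring
  rw [e, sum_range_add]
  have h4 : ∑ i ∈ range (h + 1), a (h + 1 + i) * a (2 * h + 1 - (h + 1 + i)) =
      ∑ i ∈ range (h + 1), a i * a (2 * h + 1 - i) := by
    have hrf := sum_range_reflect
      (fun i : ℕ => (a (h + 1 + i) * a (2 * h + 1 - (h + 1 + i)) : ℕ)) (h + 1)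
    rw [← hrf]
    refine sum_congr rfl fun i hi => ?_
    rw [mem_range] at hi
    have h1 : h + 1 + (h + 1 - 1 - i) = 2 * h + 1 - i := by omega
    have h2 : 2 * h + 1 - (2 * h + 1 - i) = i := by omega
    rw [h1, h2, mul_comm]
  rw [h4]
  ring

lemma rep_even (a : ℕ → ℕ) (h : ℕ) :
    rep a (2 * h) = 2 * ∑ i ∈ range h, a i * a (2 * h - i) + a h * a h := by
  unfold rep
  have e : 2 * h + 1 = (h + 1) + h := by ring
  rw [e, sum_range_add, sum_range_succ]
  have h3 : 2 * h - h = h := by omega
  have h4 : ∑ i ∈ range h, a (h + 1 + i) * a (2 * h - (h + 1 + i)) =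
      ∑ i ∈ range h, a i * a (2 * h - i) := by
    have hrf := sum_range_reflect (fun i : ℕ => (a (h + 1 + i) * a (2 * h - (h + 1 + i)) : ℕ)) h
    rw [← hrf]
    refine sum_congr rfl fun i hi => ?_
    rw [mem_range] at hi
    have h1 : h + 1 + (h - 1 - i) = 2 * h - i := by omega
    have h2 : 2 * h - (2 * h - i) = i := by omega
    rw [h1, h2, mul_comm]
  rw [h4, h3]
  ring

lemma I1_bd (R : ℕ) : I1 R ≤ R + 6 := by
  have h1 := I1_le R
  have h2 := T_le exp_ones R
  have h3 : (I1 R : ℝ) ≤ ((R + 6 : ℤ) : ℝ) := by push_cast; linarith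
  exact_mod_cast h3

/-- every one forces a coincidence -/
lemma forced (k : ℕ) (hk : ones k = 1) (L : ℕ) (hL : 2 * k + L + 4 < 2 ^ L) :
    ∃ m, 2 * k ≤ m ∧ m ≤ 2 * k + L ∧ Coincidence m := by
  by_contra hcon
  push Not at hcon
  have hr : ∀ m, 2 * k ≤ m → m ≤ 2 * k + L → rep ones m + 2 * ones m ≤ 2 := by
    intro m h1 h2
    by_contra h3
    exact hcon m h1 h2 (coinc m (by omega))
  obtain ⟨hk1, -⟩ := one_of_ones hk
  obtain ⟨h, rfl⟩ : ∃ h, k = h + 1 := ⟨k - 1, by omega⟩
  -- the odd place before `2 k`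
  have hodd : 2 ≤ I1 (2 * h + 1) := by
    have h1 := I1_succ (2 * h)
    rw [rep_odd] at h1
    have h2 := I1_pos (2 * h + 1)
    push_cast at h1
    omega
  have hbase : 3 ≤ I1 (2 * (h + 1)) := by
    have h1 := I1_succ (2 * h + 1)
    have e : 2 * h + 1 + 1 = 2 * (h + 1) := by ring
    rw [e] at h1
    have h2 := hr (2 * (h + 1)) le_rfl (by omega)
    have h3 := rep_even ones (h + 1)
    rw [hk] at h3
    have h4 : rep ones (2 * (h + 1)) + 2 * ones (2 * (h + 1)) ≤ 1 := by omega
    have h5 : (rep ones (2 * (h + 1)) : ℤ) + 2 * (ones (2 * (h + 1)) : ℤ) ≤ 1 := by exact_mod_cast h4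
    linarith
  have hgrow : ∀ j, j ≤ L → (2 : ℤ) ^ j + 2 ≤ I1 (2 * (h + 1) + j) := by
    intro j
    induction j with
    | zero => intro _; simpa using hbase
    | succ j ih =>
      intro hj
      have h1 := ih (by omega)
      have h2 := I1_succ (2 * (h + 1) + j)
      have h3 := hr (2 * (h + 1) + j + 1) (by omega) (by omega)
      have h4 : (rep ones (2 * (h + 1) + j + 1) : ℤ) + 2 * (ones (2 * (h + 1) + j + 1) : ℤ) ≤ 2 := by
        exact_mod_cast h3
      have h5 : 2 * (h + 1) + (j + 1) = 2 * (h + 1) + j + 1 := by ring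
      rw [h5, pow_succ]
      linarith
  have h1 := hgrow L le_rfl
  have h2 := I1_bd (2 * (h + 1) + L)
  have h3 : ((2 * (h + 1) + L + 4 : ℕ) : ℤ) < ((2 ^ L : ℕ) : ℤ) := by exact_mod_cast hL
  push_cast at h2 h3
  linarith

lemma digit_val (k u : ℕ) (h1 : (u : ℝ) ≤ 1.4142 * 2 ^ k) (h2 : 1.4143 * 2 ^ k ≤ (u : ℝ) + 1) :
    digit k = ((u % 2 : ℕ) : ℤ) := by
  have hu : U k = u := by
    unfold U
    rw [Nat.floor_eq_iff (by positivity)]
    have h3 := lt_sqrt
    have h4 := sqrt_lt
    have h5 : (0 : ℝ) < 2 ^ k := by positivity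
    constructor <;> nlinarith
  rw [digit_eq]
  unfold dg
  rw [hu]

lemma coinc_five : Coincidence 5 := by
  have h2 := digit_val 2 5 (by norm_num) (by norm_num)
  have h3 := digit_val 3 11 (by norm_num) (by norm_num)
  have h5 := digit_val 5 45 (by norm_num) (by norm_num)
  norm_num at h2 h3 h5
  exact ⟨0, 5, 2, 3, by norm_num, by norm_num, by norm_num, by norm_num, by norm_num, digit_zero,
    h5, h2, h3⟩

lemma digit_one : digit 1 = 0 := by
  have h := digit_val 1 2 (by norm_num) (by norm_num)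
  norm_num at h
  exact h

lemma log_pow (k : ℕ) (hk : 2 ≤ k) : 2 * k + (Nat.log 2 k + 3) + 4 < 2 ^ (Nat.log 2 k + 3) := by
  set l := Nat.log 2 k with hl
  have h1 : k < 2 ^ (l + 1) := Nat.lt_pow_succ_log_self (by norm_num) k
  have h2 : 1 ≤ l := Nat.log_pos (by norm_num) hk
  have h3 : l < 2 ^ l := Nat.lt_two_pow_self
  have h4 : 2 ≤ 2 ^ l := by
    calc 2 = 2 ^ 1 := rfl
      _ ≤ 2 ^ l := Nat.pow_le_pow_right (by norm_num) h2
  rw [pow_succ] at h1
  rw [pow_add]
  rcases Nat.lt_or_ge l 2 with h5 | h5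
  · have : l = 1 := by omega
    rw [this] at h1 ⊢
    norm_num at *
    omega
  · have h6 : 4 ≤ 2 ^ l := by
      calc 4 = 2 ^ 2 := rfl
        _ ≤ 2 ^ l := Nat.pow_le_pow_right (by norm_num) h5
    omega

lemma bound (n : ℕ) (hn : 60 ≤ n) :
    n ≤ 100 * (coincidences n) ^ 2 * (Nat.log 2 (n + 4) + 1 + 4) + (Nat.log 2 (n + 4) + 1) + 1 := by
  classical
  set L := Nat.log 2 (n + 4) + 1 with hL
  have hL1 : n + 4 < 2 ^ L := Nat.lt_pow_succ_log_self (by norm_num) _
  have hL2 : 2 ^ (L - 1) ≤ n + 4 := by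
    rw [hL, Nat.add_sub_cancel]
    exact Nat.pow_log_le_self 2 (by omega)
  set E := (Icc 1 n).filter Coincidence with hE
  have hK : coincidences n = E.card := by
    unfold coincidences
    rw [hE]
  rw [hK]
  have hLn : L + 17 ≤ n := by
    by_contra hc
    have h1 : L - 1 = (L - 18) + 17 ∨ L < 18 := by omega
    rcases h1 with h1 | h1
    · have h2 : L - 18 < 2 ^ (L - 18) := Nat.lt_two_pow_self
      rw [h1, pow_add] at hL2
      norm_num at hL2
      omega
    · have h3 : 7 ≤ L := by
        by_contra h4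
        have : 2 ^ L ≤ 2 ^ 6 := Nat.pow_le_pow_right (by norm_num) (by omega)
        omega
      omega
  set e : ℕ → ℕ := fun i => if h : i < E.card then ((E.equivFin.symm ⟨i, h⟩ : E) : ℕ) else 0 with he
  have hcov : ∀ k ≤ (n - L) / 2, ones k = 1 → ∃ i < E.card, (e i - L) / 2 ≤ k ∧ k ≤ e i / 2 := by
    intro k hk h1
    obtain ⟨m, hm1, hm2, hm3⟩ := forced k h1 L (by omega)
    obtain ⟨hk1, -⟩ := one_of_ones h1
    have hmE : m ∈ E := mem_filter.2 ⟨mem_Icc.2 ⟨by omega, by omega⟩, hm3⟩
    have hlt : ((E.equivFin ⟨m, hmE⟩ : Fin E.card) : ℕ) < E.card := (E.equivFin ⟨m, hmE⟩).2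
    refine ⟨E.equivFin ⟨m, hmE⟩, hlt, ?_⟩
    have h3 : e (E.equivFin ⟨m, hmE⟩ : Fin E.card) = m := by
      rw [he]
      simp only [hlt, dif_pos, Fin.eta, Equiv.symm_apply_apply]
    rw [h3]
    omega
  have h1 := cover_ones ((n - L) / 2) E.card (by omega) (fun i => (e i - L) / 2) (fun i => e i / 2)
    (fun i _ => by omega) hcov
  have h2 : ∑ i ∈ range E.card, (e i / 2 + 1 - (e i - L) / 2) ≤ E.card * (L / 2 + 2) := by
    calc _ ≤ ∑ _i ∈ range E.card, (L / 2 + 2) := sum_le_sum fun i _ => by omega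
      _ = E.card * (L / 2 + 2) := by rw [sum_const, card_range, smul_eq_mul]
  have h3 : 100 * (E.card * ∑ i ∈ range E.card, (e i / 2 + 1 - (e i - L) / 2)) ≤
      100 * (E.card * (E.card * (L / 2 + 2))) :=
    Nat.mul_le_mul_left _ (Nat.mul_le_mul_left _ h2)
  have h4 : 2 * (100 * (E.card * (E.card * (L / 2 + 2)))) ≤ 100 * E.card ^ 2 * (L + 4) := by
    have h5 : 2 * (L / 2 + 2) ≤ L + 4 := by omega
    calc 2 * (100 * (E.card * (E.card * (L / 2 + 2)))) = 100 * E.card ^ 2 * (2 * (L / 2 + 2)) := by ring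
      _ ≤ _ := Nat.mul_le_mul_left _ h5
  have h6 : (n - L) / 2 ≤ 100 * (E.card * (E.card * (L / 2 + 2))) := h1.trans h3
  omega

/-- The result. -/
theorem result :
    (∀ k : ℕ, 1 ≤ k → digit k = 1 →
      ∃ m, Coincidence m ∧ 2 * k ≤ m ∧ m ≤ 2 * k + Nat.log 2 k + 3) ∧
    ∀ n : ℕ, 5 ≤ n → (n : ℝ) ≤ 300 * (coincidences n : ℝ) ^ 2 * Real.log n := by
  classical
  refine ⟨fun k hk h1 => ?_, fun n hn => ?_⟩
  · have hk2 : 2 ≤ k := by
      rcases Nat.lt_or_ge k 2 with h | h
      · have : k = 1 := by omega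
        rw [this, digit_one] at h1
        norm_num at h1
      · exact h
    obtain ⟨m, hm1, hm2, hm3⟩ := forced k (ones_of_one hk h1) _ (log_pow k hk2)
    exact ⟨m, hm3, hm1, by omega⟩
  · have hK : 1 ≤ coincidences n := by
      unfold coincidences
      refine card_pos.2 ⟨5, mem_filter.2 ⟨mem_Icc.2 ⟨by norm_num, hn⟩, coinc_five⟩⟩
    have hKR : (1 : ℝ) ≤ coincidences n := by exact_mod_cast hK
    have hK2 : (1 : ℝ) ≤ (coincidences n : ℝ) ^ 2 := one_le_pow₀ hKR
    have hnR : (5 : ℝ) ≤ n := by exact_mod_cast hn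
    have hlog1 : 1 ≤ Real.log n := by
      rw [Real.le_log_iff_exp_le (by linarith)]
      have := Real.exp_one_lt_d9
      linarith
    rcases Nat.lt_or_ge n 60 with h | h
    · have h1 : (n : ℝ) ≤ 60 := by exact_mod_cast h.le
      nlinarith
    · have h1 := bound n h
      set L := Nat.log 2 (n + 4) with hL
      have h2 : (2 : ℝ) ^ L ≤ 2 * n := by
        have h3 : 2 ^ L ≤ n + 4 := Nat.pow_log_le_self 2 (by omega)
        have h4 : 2 ^ L ≤ 2 * n := by omega
        exact_mod_cast h4
      have h3 : (L : ℝ) * Real.log 2 ≤ Real.log 2 + Real.log n := by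
        have h5 := Real.log_le_log (by positivity) h2
        rwa [Real.log_pow, Real.log_mul (by norm_num) (by linarith)] at h5
      have h4 := Real.log_two_gt_d9
      have h5 := Real.log_two_lt_d9
      have h60 : (60 : ℝ) ≤ n := by exact_mod_cast h
      have hlog4 : 4 ≤ Real.log n := by
        rw [Real.le_log_iff_exp_le (by linarith)]
        have h6 := Real.exp_one_lt_d9
        have h7 : Real.exp 4 = Real.exp 1 ^ 4 := by rw [← Real.exp_nat_mul]; norm_num
        rw [h7]
        have h8 : Real.exp 1 ^ 4 ≤ 2.7182818286 ^ 4 :=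
          pow_le_pow_left₀ (Real.exp_pos 1).le h6.le 4
        norm_num at h8 ⊢
        linarith
      have h6 : (L : ℝ) ≤ 1.4428 * Real.log n + 1.01 := by nlinarith
      have h7 : (n : ℝ) ≤ 100 * (coincidences n : ℝ) ^ 2 * (L + 1 + 4) + (L + 1) + 1 := by
        exact_mod_cast h1
      set X : ℝ := (coincidences n : ℝ) ^ 2 with hX
      have h8 : (L : ℝ) + 1 + 1 ≤ X * (L + 2) := by
        have : (0 : ℝ) ≤ L := Nat.cast_nonneg _
        nlinarith
      have h9 : (n : ℝ) ≤ X * (101 * L + 502) := by nlinarith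
      have h10 : 101 * (L : ℝ) + 502 ≤ 300 * Real.log n := by nlinarith
      calc (n : ℝ) ≤ X * (101 * L + 502) := h9
        _ ≤ X * (300 * Real.log n) := mul_le_mul_of_nonneg_left h10 (by positivity)
        _ = 300 * X * Real.log n := by ring

end Pool.Agent.Results.MP_0308e6_nt.CoincidentSums
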