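import Pool.Agent.R474.Sqrt

/-!
# Coverings of the ones and of the zeros of `√2`

No hypothesis is assumed.  Let `v` be `0` or `1` and let `n ≥ 8`.

If `K` intervals of integers, of lengths which add up to `W`, cover all `k` in `[1, n]` for which
the `k`-th binary digit of `√2` is `v`, then `n ≤ 100 K W`.
-/

set_option autoImplicit false

open Finset

namespace Pool.Agent.Results.MP_0308e6_nt.CoveringOnesAndZeros

open Pool.Agent.R474

/-- the `k`-th binary digit of `√2` after the point -/
noncomputable def digit (k : ℕ) : ℤ := ⌊Real.sqrt 2 * 2 ^ k⌋ % 2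

lemma digit_eq (k : ℕ) : digit k = (dg k : ℤ) := by
  unfold digit dg U
  have h := Int.natCast_floor_eq_floor (a := Real.sqrt 2 * 2 ^ k) (by positivity)
  rw [← h]
  norm_cast

/-- The result: `K` intervals `[u i, w i]`, `i < K`, which cover all positions in `[1, n]` of the
digit `v`, have total length at least `n / (100 K)`. -/
theorem result (v : ℤ) (hv : v = 0 ∨ v = 1) (n : ℕ) (hn : 8 ≤ n) (K : ℕ) (u w : ℕ → ℕ)
    (huw : ∀ i < K, u i ≤ w i)
    (hcov : ∀ k ∈ Icc 1 n, digit k = v → ∃ i < K, u i ≤ k ∧ k ≤ w i) :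
    n ≤ 100 * K * ∑ i ∈ range K, (w i + 1 - u i) := by
  rw [mul_assoc]
  rcases hv with rfl | rfl
  · refine cover_zers n K hn u w huw fun k hk h1 => ?_
    unfold zers at h1
    split_ifs at h1 with h0
    refine hcov k (mem_Icc.2 ⟨by omega, hk⟩) ?_
    rw [digit_eq]
    omega
  · refine cover_ones n K hn u w huw fun k hk h1 => ?_
    unfold ones at h1
    split_ifs at h1 with h0
    refine hcov k (mem_Icc.2 ⟨by omega, hk⟩) ?_
    rw [digit_eq]
    omega

end Pool.Agent.Results.MP_0308e6_nt.CoveringOnesAndZeros
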