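import Pool.Agent.R474.Sqrt
import Pool.Agent.R474.Build

/-!
# Automata which predict the binary digits of `√2`

No hypothesis is assumed.  An automaton with state set `Q` reads the digits of `√2` one by one and
predicts each digit before it is read: the prediction of the `k`-th digit is `out (s (k - 1))`, where
`s (k - 1)` is the state after the digits `1, …, k - 1` have been read.  Let `E` be the number of
wrong predictions for the first `n` digits, `n ≥ 8`, let `v` be `0` or `1` and let `N_v` be the
number of digits `v` among the first `n` digits.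

* If, on constant input `1 - v`, from every state the automaton is either right forever or wrong
  within the first `l ≥ 1` predictions, then `n ≤ 200 l (E + 1) N_v`.
* In particular `n ≤ 200 |Q| (E + 1) N_v` if `Q` is finite.
-/

set_option autoImplicit false

open Finset

namespace Pool.Agent.Results.MP_0308e6_nt.PredictingAutomata

open Pool.Agent.R474

/-- the `k`-th binary digit of `√2` after the point -/
noncomputable def digit (k : ℕ) : ℤ := ⌊Real.sqrt 2 * 2 ^ k⌋ % 2

/-- the number of `k` in `[1, n]` for which the `k`-th digit is `v` -/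
noncomputable def count (v : ℤ) (n : ℕ) : ℕ :=
  ((Icc 1 n).filter (fun k => digit k = v)).card

/-- the number of `k` in `[1, n]` for which the prediction `p (k - 1)` of the `k`-th digit is
wrong -/
noncomputable def wrong (p : ℕ → ℤ) (n : ℕ) : ℕ :=
  ((Icc 1 n).filter (fun k => digit k ≠ p (k - 1))).card

lemma digit_eq (k : ℕ) : digit k = (dg k : ℤ) := by
  unfold digit dg U
  have h := Int.natCast_floor_eq_floor (a := Real.sqrt 2 * 2 ^ k) (by positivity)
  rw [← h]
  norm_cast

lemma digit_cases (k : ℕ) : digit k = 0 ∨ digit k = 1 := by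
  have h := dg_le k
  rw [digit_eq]
  omega

/-- The covering theorem. -/
theorem cover (v : ℤ) (hv : v = 0 ∨ v = 1) (n : ℕ) (hn : 8 ≤ n) (K : ℕ) (u w : ℕ → ℕ)
    (huw : ∀ i < K, u i ≤ w i)
    (hcov : ∀ k ∈ Icc 1 n, digit k = v → ∃ i < K, u i ≤ k ∧ k ≤ w i) :
    n ≤ 100 * K * ∑ i ∈ range K, (w i + 1 - u i) := by
  rw [mul_assoc]
  rcases hv with rfl | rfl
  · refine cover_zers n K hn u w huw fun k hk h1 => ?_
    unfold zers at h1
    split_ifs at h1 with h0
    refine hcov k (mem_Icc.2 ⟨by omega, hk⟩) ?_
    rw [digit_eq]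
    omega
  · refine cover_ones n K hn u w huw fun k hk h1 => ?_
    unfold ones at h1
    split_ifs at h1 with h0
    refine hcov k (mem_Icc.2 ⟨by omega, hk⟩) ?_
    rw [digit_eq]
    omega

/-- Both digits occur among the first eight digits. -/
lemma count_pos (v : ℤ) (hv : v = 0 ∨ v = 1) (n : ℕ) (hn : 8 ≤ n) : 1 ≤ count v n := by
  by_contra hcon
  have h0 : count v n = 0 := by omega
  unfold count at h0
  rw [card_eq_zero, filter_eq_empty_iff] at h0
  have := cover v hv n hn 0 (fun _ => 0) (fun _ => 0) (by simp) (fun k hk h => absurd h (h0 hk))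
  simp at this
  omega

/-- The square root bound, with the constant from the covering inequality. -/
lemma count_sq (v : ℤ) (hv : v = 0 ∨ v = 1) (n : ℕ) (hn : 8 ≤ n) :
    n ≤ 100 * count v n * count v n := by
  obtain ⟨K, u, w, hK, huw, -, hcov, hsum, -⟩ := build (fun k => digit k = v)
    (fun k => digit k = v) 1 n (fun z _ _ hS hB => absurd hS hB) le_rfl n le_rfl
  have h1 := cover v hv n hn K u w huw (fun k hk h => by
    obtain ⟨hk1, hk2⟩ := mem_Icc.1 hk
    exact hcov k hk1 hk2 h)
  have hK' : K = count v n := hK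
  have hW : ∑ i ∈ range K, (w i + 1 - u i) ≤ count v n := by
    refine hsum.trans ((Nat.add_le_add (le_of_eq ?_) (le_of_eq ?_)).trans (le_of_eq (Nat.add_zero _)))
    · rw [Nat.one_mul]; rfl
    · rw [card_eq_zero, filter_eq_empty_iff]
      intro k _ h
      exact h.2 h.1
  rw [← hK'] at hW ⊢
  exact h1.trans (Nat.mul_le_mul_left _ hW)

theorem general {Q : Type*} (v : ℤ) (hv : v = 0 ∨ v = 1) (step : Q → ℤ → Q) (out : Q → ℤ)
    (s : ℕ → Q) (hs : ∀ k, s (k + 1) = step (s k) (digit (k + 1))) (l : ℕ) (hl : 1 ≤ l)
    (hQ : ∀ x : Q, (∀ i < l, out ((fun y => step y (1 - v))^[i] x) = 1 - v) →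
      ∀ i, out ((fun y => step y (1 - v))^[i] x) = 1 - v) (n : ℕ) (hn : 8 ≤ n) :
    n ≤ 200 * l * (wrong (fun k => out (s k)) n + 1) * count v n := by
  classical
  have hN := count_pos v hv n hn
  have hsq := count_sq v hv n hn
  have hother : ∀ k, digit k ≠ v → digit k = 1 - v := by
    intro k hk
    rcases hv with rfl | rfl <;> rcases digit_cases k with h | h <;> omega
  set N := count v n with hNdef
  set E := wrong (fun k => out (s k)) n with hE
  obtain ⟨K, u, w, hK, huw, -, hcov, hsum, -⟩ := build (fun k => digit k = v)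
    (fun k => k = 1 ∨ digit k ≠ out (s (k - 1))) l n
    (fun z hz1 hz2 hS hB => by
      simp only [not_or, not_not] at hB
      obtain ⟨hB1, hB2⟩ := hB
      by_contra hcon
      push Not at hcon
      have hzl : l + 1 < z := by
        by_contra hzl
        exact (hcon 1 le_rfl (by omega) (by omega)).2.1 rfl
      -- the state before position `z - l`
      have hst : ∀ i ≤ l, s (z - l - 1 + i) = (fun y => step y (1 - v))^[i] (s (z - l - 1)) := by
        intro i
        induction i with
        | zero => intro _; simp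
        | succ i ih =>
          intro hi
          rw [Function.iterate_succ_apply', ← ih (by omega), ← Nat.add_assoc, hs]
          congr 1
          exact hother _ (hcon _ (by omega) (by omega) (by omega)).1
      have hpr : ∀ i < l, out ((fun y => step y (1 - v))^[i] (s (z - l - 1))) = 1 - v := by
        intro i hi
        rw [← hst i hi.le]
        obtain ⟨h1, h2, h3⟩ := hcon (z - l + i) (by omega) (by omega) (by omega)
        have h4 : z - l + i - 1 = z - l - 1 + i := by omega
        rw [h4] at h3
        rw [← h3]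
        exact hother _ h1
      have h5 := hQ _ hpr l
      rw [← hst l le_rfl] at h5
      have h6 : z - l - 1 + l = z - 1 := by omega
      rw [h6, ← hB2] at h5
      rw [h5] at hS
      rcases hv with rfl | rfl <;> omega) hl n le_rfl
  have h1 := cover v hv n hn K u w huw (fun k hk h => by
    obtain ⟨hk1, hk2⟩ := mem_Icc.1 hk
    exact hcov k hk1 hk2 h)
  have hKE : K ≤ E + 1 := by
    rw [hK]
    refine (card_le_card (t := insert 1 ((Icc 1 n).filter (fun k =>
      digit k ≠ out (s (k - 1))))) ?_).trans (card_insert_le _ _)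
    intro k hk
    rw [mem_filter] at hk
    rw [mem_insert, mem_filter]
    rcases hk.2 with h | h
    · exact Or.inl h
    · exact Or.inr ⟨hk.1, h⟩
  have hrest : ((Icc 1 n).filter (fun k => (k = 1 ∨ digit k ≠ out (s (k - 1))) ∧
      ¬ digit k = v)).card ≤ K := by
    rw [hK]
    refine card_le_card ?_
    intro k hk
    rw [mem_filter] at hk ⊢
    exact ⟨hk.1, hk.2.1⟩
  have hN' : ((Icc 1 n).filter (fun k => digit k = v)).card = N := rfl
  rw [hN'] at hsum
  have hW : ∑ i ∈ range K, (w i + 1 - u i) ≤ l * N + (E + 1) := by omega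
  rcases le_total (E + 1) N with h | h
  · have hlN : N ≤ l * N := Nat.le_mul_of_pos_left N hl
    calc n ≤ 100 * K * ∑ i ∈ range K, (w i + 1 - u i) := h1
      _ ≤ 100 * (E + 1) * (2 * (l * N)) :=
        Nat.mul_le_mul (Nat.mul_le_mul_left _ hKE) (hW.trans (by omega))
      _ = 200 * l * (E + 1) * N := by ring
  · calc n ≤ 100 * N * N := hsq
      _ ≤ 100 * (E + 1) * N := Nat.mul_le_mul_right _ (Nat.mul_le_mul_left _ h)
      _ ≤ 200 * l * (E + 1) * N :=
        Nat.mul_le_mul_right _ (Nat.mul_le_mul_right _ (by omega))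

/-- A finite automaton is right forever if it is right `|Q|` times in a row, on constant input. -/
lemma finite_iterate {Q : Type*} [Fintype Q] (F : Q → Q) (P : Q → Prop) (x : Q)
    (h : ∀ i < Fintype.card Q, P (F^[i] x)) : ∀ i, P (F^[i] x) := by
  obtain ⟨i, j, hij, hj, heq⟩ : ∃ i j, i < j ∧ j ≤ Fintype.card Q ∧ F^[i] x = F^[j] x := by
    have hcard : Fintype.card Q < Fintype.card (Fin (Fintype.card Q + 1)) := by simp
    obtain ⟨a, b, hab, heq⟩ := Fintype.exists_ne_map_eq_of_card_lt
      (fun a : Fin (Fintype.card Q + 1) => F^[(a : ℕ)] x) hcard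
    rcases lt_or_gt_of_ne hab with h1 | h1
    · exact ⟨a, b, h1, by omega, heq⟩
    · exact ⟨b, a, h1, by omega, heq.symm⟩
  intro t
  induction t using Nat.strong_induction_on with
  | _ t ih =>
    rcases lt_or_ge t (Fintype.card Q) with h1 | h1
    · exact h t h1
    · have h2 : F^[t] x = F^[t - j + i] x := by
        have h3 : t = t - j + j := by omega
        conv_lhs => rw [h3]
        rw [Function.iterate_add_apply, ← heq, ← Function.iterate_add_apply]
      rw [h2]
      exact ih _ (by omega)

/-- The result. -/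
theorem result {Q : Type*} (v : ℤ) (hv : v = 0 ∨ v = 1) (step : Q → ℤ → Q) (out : Q → ℤ)
    (s : ℕ → Q) (hs : ∀ k, s (k + 1) = step (s k) (digit (k + 1))) (n : ℕ) (hn : 8 ≤ n) :
    (∀ l : ℕ, 1 ≤ l →
      (∀ x : Q, (∀ i < l, out ((fun y => step y (1 - v))^[i] x) = 1 - v) →
        ∀ i, out ((fun y => step y (1 - v))^[i] x) = 1 - v) →
      n ≤ 200 * l * (wrong (fun k => out (s k)) n + 1) * count v n) ∧
    (Finite Q → n ≤ 200 * Nat.card Q * (wrong (fun k => out (s k)) n + 1) * count v n) := by
  refine ⟨fun l hl hQ => general v hv step out s hs l hl hQ n hn, fun hfin => ?_⟩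
  have : Fintype Q := Fintype.ofFinite Q
  rw [Nat.card_eq_fintype_card]
  exact general v hv step out s hs _ (Fintype.card_pos_iff.2 ⟨s 0⟩)
    (fun x hx => finite_iterate (fun y => step y (1 - v)) (fun y => out y = 1 - v) x hx) n hn

end Pool.Agent.Results.MP_0308e6_nt.PredictingAutomata
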