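import Pool.Agent.R474.SumSet

/-!
# Sums of two places of ones, or of zeros, of `√2`

No hypothesis is assumed.  Let `v` be `0` or `1`, let `n ≥ 8`, let `N` be the number of digits `v`
among the first `n` binary digits of `√2`, and let `S` be the number of `k` in `[1, n]` which are the
sum of two places of the digit `v`.  Then `n ≤ 250 S log (2 + N ^ 2 / n)`.
-/

set_option autoImplicit false

open Finset

namespace Pool.Agent.Results.MP_0308e6_nt.SumsOfPlaces

open Pool.Agent.R474

/-- the `k`-th binary digit of `√2` after the point -/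
noncomputable def digit (k : ℕ) : ℤ := ⌊Real.sqrt 2 * 2 ^ k⌋ % 2

/-- the number of `k` in `[1, n]` for which the `k`-th digit is `v` -/
noncomputable def count (v : ℤ) (n : ℕ) : ℕ :=
  ((Icc 1 n).filter (fun k => digit k = v)).card

/-- `k` is the sum of two places (equal or not) of the digit `v` after the point -/
def IsSum (v : ℤ) (k : ℕ) : Prop := ∃ i j : ℕ, 1 ≤ i ∧ 1 ≤ j ∧ i + j = k ∧ digit i = v ∧ digit j = v

open Classical in
/-- the number of `k` in `[1, n]` which are the sum of two places of the digit `v` -/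
noncomputable def sums (v : ℤ) (n : ℕ) : ℕ := ((Icc 1 n).filter (IsSum v)).card

lemma digit_eq (k : ℕ) : digit k = (dg k : ℤ) := by
  unfold digit dg U
  have h := Int.natCast_floor_eq_floor (a := Real.sqrt 2 * 2 ^ k) (by positivity)
  rw [← h]
  norm_cast

section
variable {v : ℤ} {a : ℕ → ℕ}

/-- the relation between the digit `v` and the sequence `a` -/
def Ind (v : ℤ) (a : ℕ → ℕ) : Prop := a 0 = 0 ∧ (∀ k, a k ≤ 1) ∧ ∀ k, 1 ≤ k → (a k = 1 ↔ digit k = v)

lemma sum_eq_count (h : Ind v a) (n : ℕ) : ∑ k ∈ range (n + 1), a k = count v n := by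
  obtain ⟨h0, h1, h2⟩ := h
  unfold count
  rw [card_filter, sum_range_succ', h0, Nat.add_zero]
  have e : Icc 1 n = Ico 1 (n + 1) := by ext k; simp only [mem_Icc, mem_Ico]; omega
  rw [e, sum_Ico_eq_sum_range]
  refine sum_congr rfl fun k _ => ?_
  have h3 := h2 (1 + k) (by omega)
  have h4 := h1 (1 + k)
  rw [Nat.add_comm k 1]
  split_ifs with h5
  · exact h3.2 h5
  · have : a (1 + k) ≠ 1 := fun h6 => h5 (h3.1 h6)
    omega

lemma occ_le (h : Ind v a) (n : ℕ) : (occ a n).card ≤ sums v n + count v n := by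
  classical
  obtain ⟨h0, h1, h2⟩ := h
  have hsub : occ a n ⊆ (Icc 1 n).filter (IsSum v) ∪ (Icc 1 n).filter (fun k => digit k = v) := by
    intro k hk
    rw [occ, mem_filter] at hk
    obtain ⟨hk1, hk2⟩ := hk
    have hk3 := mem_Icc.1 hk1
    rcases hk2 with hk2 | hk2
    · refine mem_union_left _ (mem_filter.2 ⟨hk1, ?_⟩)
      unfold rep at hk2
      obtain ⟨i, hi, hne⟩ := exists_ne_zero_of_sum_ne_zero hk2
      rw [mem_range] at hi
      have h3 : a i ≠ 0 := fun h => hne (by rw [h, zero_mul])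
      have h4 : a (k - i) ≠ 0 := fun h => hne (by rw [h, mul_zero])
      have h5 : 1 ≤ i := by
        by_contra hcon
        have : i = 0 := by omega
        exact h3 (by rw [this, h0])
      have h6 : 1 ≤ k - i := by
        by_contra hcon
        have : k - i = 0 := by omega
        exact h4 (by rw [this, h0])
      have h7 := h1 i
      have h8 := h1 (k - i)
      exact ⟨i, k - i, h5, h6, by omega, (h2 i h5).1 (by omega), (h2 _ h6).1 (by omega)⟩
    · refine mem_union_right _ (mem_filter.2 ⟨hk1, ?_⟩)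
      have h7 := h1 k
      exact (h2 k hk3.1).1 (by omega)
  refine (card_le_card hsub).trans ((card_union_le _ _).trans ?_)
  unfold sums count
  exact Nat.add_le_add (le_of_eq (by congr)) le_rfl

lemma count_le (s : ℕ) (hs : 1 ≤ s) (hsv : digit s = v) (n : ℕ) : count v n ≤ sums v n + s := by
  classical
  have hsub : (Icc 1 n).filter (fun k => digit k = v) ⊆
      (((Icc 1 n).filter (IsSum v)).image (· - s)) ∪ Ioc (n - s) n := by
    intro k hk
    obtain ⟨hk1, hk2⟩ := mem_filter.1 hk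
    obtain ⟨hk3, hk4⟩ := mem_Icc.1 hk1
    by_cases h : n - s < k
    · exact mem_union_right _ (mem_Ioc.2 ⟨h, hk4⟩)
    · refine mem_union_left _ (mem_image.2 ⟨k + s, mem_filter.2 ⟨mem_Icc.2 ⟨by omega, by omega⟩,
        k, s, hk3, hs, rfl, hk2, hsv⟩, by simp⟩)
  have h1 := card_le_card hsub
  have h2 := card_union_le (((Icc 1 n).filter (IsSum v)).image (· - s)) (Ioc (n - s) n)
  have h3 := card_image_le (s := (Icc 1 n).filter (IsSum v)) (f := (· - s))
  have h4 : (Ioc (n - s) n).card ≤ s := by rw [Nat.card_Ioc]; omega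
  have h5 : ((Icc 1 n).filter (IsSum v)).card = sums v n := by unfold sums; congr
  rw [h5] at h3
  unfold count
  omega

/-- the numerical inequality -/
lemma final (n S N C : ℕ) (hn : 8 ≤ n) (hS : 1 ≤ S) (hNS : N ≤ S + 2) (hC : C ≤ S + N) (l : ℝ)
    (hl : ∀ M : ℕ, l ≤ (M + 1) * (C + 1) + ((N : ℝ) ^ 2 + 4 * n + 8) / 2 ^ M)
    (hnl : (n : ℝ) ≤ 2 * l + 4 * (N + 1)) :
    (n : ℝ) ≤ 250 * S * Real.log (2 + (N : ℝ) ^ 2 / n) := by
  have hnR : (8 : ℝ) ≤ n := by exact_mod_cast hn
  have hn0 : (0 : ℝ) < n := by linarith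
  have hSR : (1 : ℝ) ≤ S := by exact_mod_cast hS
  have hNR : (N : ℝ) ≤ S + 2 := by exact_mod_cast hNS
  have hCR : (C : ℝ) ≤ S + N := by exact_mod_cast hC
  set X : ℝ := (N : ℝ) ^ 2 / n with hX
  have hX0 : 0 ≤ X := by positivity
  have hNX : (N : ℝ) ^ 2 = X * n := by rw [hX]; field_simp
  have hex : ∃ M : ℕ, 4 * (X + 5) ≤ (2 : ℝ) ^ M := by
    obtain ⟨M, hM⟩ := pow_unbounded_of_one_lt (4 * (X + 5)) (by norm_num : (1 : ℝ) < 2)
    exact ⟨M, hM.le⟩
  classical
  set M := Nat.find hex with hM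
  have hM1 : 4 * (X + 5) ≤ (2 : ℝ) ^ M := Nat.find_spec hex
  have hMpos : M ≠ 0 := by
    intro h
    rw [h, pow_zero] at hM1
    linarith
  obtain ⟨M', hM'⟩ := Nat.exists_eq_succ_of_ne_zero hMpos
  have hM2 : (2 : ℝ) ^ M' < 4 * (X + 5) := by
    have := Nat.find_min hex (m := M') (by rw [← hM]; omega)
    push Not at this
    exact this
  have h2M : (2 : ℝ) ^ (M + 1) ≤ (2 + X) ^ 7 := by
    have e : (2 : ℝ) ^ (M + 1) = 4 * 2 ^ M' := by rw [hM', pow_succ, pow_succ]; ring
    rw [e]
    have e2 : (2 + X) ^ 7 = 128 + 448 * X + X * (X * (672 + 560 * X + 280 * X ^ 2 + 84 * X ^ 3 +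
      14 * X ^ 4 + X ^ 5)) := by ring
    rw [e2]
    have e3 : 0 ≤ X * (X * (672 + 560 * X + 280 * X ^ 2 + 84 * X ^ 3 + 14 * X ^ 4 + X ^ 5)) := by
      positivity
    linarith
  set L : ℝ := Real.log (2 + X) with hL
  have hlog2 := Real.log_two_gt_d9
  have hLlog2 : Real.log 2 ≤ L := Real.log_le_log (by norm_num) (by linarith)
  have hML : ((M : ℝ) + 1) * Real.log 2 ≤ 7 * L := by
    have h1 := Real.log_le_log (by positivity) h2M
    rw [Real.log_pow, Real.log_pow] at h1
    push_cast at h1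
    exact h1
  have hM3 : (M : ℝ) + 1 ≤ 10.1 * L := by
    have h1 : ((M : ℝ) + 1) * 0.6931 ≤ ((M : ℝ) + 1) * Real.log 2 :=
      mul_le_mul_of_nonneg_left (by linarith) (by positivity)
    have h2 : 0 < L := by linarith
    nlinarith
  have hlast : ((N : ℝ) ^ 2 + 4 * n + 8) / 2 ^ M ≤ n / 4 := by
    rw [div_le_iff₀ (by positivity), hNX]
    have h1 : X * n + 4 * n + 8 ≤ (X + 5) * n := by nlinarith
    have h2 : (n : ℝ) / 4 * (4 * (X + 5)) ≤ n / 4 * 2 ^ M :=
      mul_le_mul_of_nonneg_left hM1 (by positivity)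
    nlinarith
  have h1 := hl M
  have h2 : (C : ℝ) + 1 ≤ 5 * S := by linarith
  have h3 : ((M : ℝ) + 1) * (C + 1) ≤ (10.1 * L) * (5 * S) :=
    mul_le_mul hM3 h2 (by positivity) (by nlinarith)
  have h4 : (4 : ℝ) * (N + 1) ≤ 16 * S := by linarith
  have h5 : (S : ℝ) * 0.6931 ≤ S * L := mul_le_mul_of_nonneg_left (by linarith) (by positivity)
  have h6 : (10.1 * L) * (5 * (S : ℝ)) = 50.5 * (S * L) := by ring
  have h7 : 250 * (S : ℝ) * L = 250 * (S * L) := by ring
  rw [h7]
  rw [h6] at h3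
  linarith

end

lemma ind_ones : Ind 1 ones := by
  refine ⟨by simp [ones], exp_ones.le_one, fun k hk => ?_⟩
  rw [digit_eq]
  unfold ones
  rw [if_neg (by omega)]
  omega

lemma ind_zers : Ind 0 zers := by
  refine ⟨by simp [zers], exp_zers.le_one, fun k hk => ?_⟩
  rw [digit_eq]
  unfold zers
  rw [if_neg (by omega)]
  have := dg_le k
  omega

lemma digit_two : digit 2 = 1 := by
  have hu : U 2 = 5 := by
    unfold U
    rw [Nat.floor_eq_iff (by positivity)]
    have := lt_sqrt
    have := sqrt_lt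
    push_cast
    constructor <;> linarith
  rw [digit_eq]
  unfold dg
  rw [hu]
  norm_num

lemma digit_one : digit 1 = 0 := by
  have hu : U 1 = 2 := by
    unfold U
    rw [Nat.floor_eq_iff (by positivity)]
    have := lt_sqrt
    have := sqrt_lt
    push_cast
    constructor <;> linarith
  rw [digit_eq]
  unfold dg
  rw [hu]
  norm_num

lemma sums_pos (v : ℤ) (s : ℕ) (hs : 1 ≤ s) (hsv : digit s = v) (n : ℕ) (hn : 2 * s ≤ n) :
    1 ≤ sums v n := by
  classical
  unfold sums
  have h1 : 2 * s ∈ (Icc 1 n).filter (IsSum v) :=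
    mem_filter.2 ⟨mem_Icc.2 ⟨by omega, hn⟩, s, s, hs, hs, by omega, hsv, hsv⟩
  have h2 := card_pos.2 ⟨_, h1⟩
  refine h2.trans_eq ?_
  congr

lemma sumT_bd {a : ℕ → ℕ} {y : ℝ} (h : Exp a y) (n : ℕ) :
    ∑ R ∈ Icc 1 n, T a y R ≤ ((∑ k ∈ range (n + 1), a k : ℕ) : ℝ) ^ 2 + 2 * n + 8 := by
  have h1 := sum_T a y n
  have h2 := sum_rep_le a n
  have h3 := T_le h n
  have h4 := (T_pos h 0).le
  push_cast
  linarith

/-- The result. -/
theorem result (v : ℤ) (hv : v = 0 ∨ v = 1) (n : ℕ) (hn : 8 ≤ n) :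
    (n : ℝ) ≤ 250 * sums v n * Real.log (2 + (count v n : ℝ) ^ 2 / n) := by
  rcases hv with rfl | rfl
  · -- zeros
    refine final n (sums 0 n) (count 0 n) (occ zers n).card hn
      (sums_pos 0 1 le_rfl digit_one n (by omega))
      ((count_le 1 le_rfl digit_one n).trans (by omega)) (occ_le ind_zers n)
      ((live I0 n).card : ℝ) (fun M => ?_) ?_
    · have h1 := live_le_occ (a := zers) I0 (T zers (2 - Real.sqrt 2)) 4
        I0_succ (fun R => (T_pos exp_zers R).le) I0_le n M
      refine h1.trans ?_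
      have h3 := sumT_bd exp_zers n
      rw [sum_eq_count ind_zers] at h3
      have h4 : (∑ R ∈ Icc 1 n, T zers (2 - Real.sqrt 2) R) / 2 ^ M ≤
          ((count 0 n : ℝ) ^ 2 + 4 * n + 8) / 2 ^ M :=
        div_le_div_of_nonneg_right (by
          have : (0 : ℝ) ≤ n := Nat.cast_nonneg _
          linarith) (by positivity)
      linarith
    · have h1 := dead_le exp_zers.le_one (by simp [zers]) I0 4 I0_succ I0_lower gap_zers n
      have h2 := live_add_dead I0 n
      rw [sum_eq_count ind_zers] at h1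
      have h4 : n ≤ 2 * (live I0 n).card + 4 * (count 0 n + 1) := by omega
      exact_mod_cast h4
  · -- ones
    refine final n (sums 1 n) (count 1 n) (occ ones n).card hn
      (sums_pos 1 2 (by norm_num) digit_two n (by omega))
      ((count_le 2 (by norm_num) digit_two n).trans le_rfl) (occ_le ind_ones n)
      ((live I1 n).card : ℝ) (fun M => ?_) ?_
    · have h1 := live_le_occ (a := ones) I1 (fun R => T ones (Real.sqrt 2 - 1) R + 2) (-2)
        I1_succ (fun R => by have := T_pos exp_ones R; linarith) I1_le n M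
      refine h1.trans ?_
      have h3 := sumT_bd exp_ones n
      rw [sum_eq_count ind_ones] at h3
      have h4 : ∑ R ∈ Icc 1 n, (T ones (Real.sqrt 2 - 1) R + 2) ≤
          (count 1 n : ℝ) ^ 2 + 4 * n + 8 := by
        rw [sum_add_distrib, sum_const, Nat.card_Icc, nsmul_eq_mul, Nat.add_sub_cancel]
        linarith
      have h5 : (∑ R ∈ Icc 1 n, (T ones (Real.sqrt 2 - 1) R + 2)) / 2 ^ M ≤
          ((count 1 n : ℝ) ^ 2 + 4 * n + 8) / 2 ^ M := div_le_div_of_nonneg_right h4 (by positivity)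
      linarith
    · have h2 : (live I1 n).card = n := by
        unfold live
        rw [filter_true_of_mem (fun R _ => I1_pos R), Nat.card_Icc]
        omega
      rw [h2]
      have : (0 : ℝ) ≤ n := Nat.cast_nonneg _
      have : (0 : ℝ) ≤ count 1 n := Nat.cast_nonneg _
      linarith

end Pool.Agent.Results.MP_0308e6_nt.SumsOfPlaces
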